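import Pool.Agent.H557R2.Nf.Strat

/-!
# An effective normal form strategy for linearized combinatory logic with surjective pairing

The system is the one of the file `Confluence.lean` of this folder: applicative terms over
countably many variables and the constants `I, K, S, D, D₁, D₂`, the rules `I x → x`, `K x y → x`,
`S x y z → (x z)(y z)`, `D₁(D x y) → x`, `D₂(D x y) → y`, and `D (D₁ x)(D₂ y) → x`,
`D (D₁ x)(D₂ y) → y` provided `x ↔* y` (semi-equational conditions, `Red` is the union of the
levels `RedN n`).

The one-step relation of this system is undecidable, the conditions being equations of combinatory
logic with surjective pairing.  We prove that there is nevertheless an effective normal form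
strategy: a function `F` on terms, primitive recursive on codes, which assigns to every term that is
not a normal form a reduct of it (`t →⁺ F t`), and such that for every term having a normal form,
iterating `F` from that term reaches the normal form.

Idea.  Let `U_N` be the finite set of the terms with code below `N`, let `=_N` be the equational
theory restricted to `U_N` and `→→_N` the reduction inside `U_N` with conditions in `=_N`; both are
decidable.  On input `t` of code `c`: if some normal form is `=_(c+1)`-equal to `t`, output it;
otherwise, if there is a reduct `u` of larger code `d` with `t →→_(d+1) u`, below an explicit bound,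
output it; otherwise output any reduct.  If `t` has no such larger reduct, then all its reducts are
found inside `U_(c+1)` (this uses confluence), so a normal form of `t` is found.  Otherwise the codes
increase along the iteration, every equation between `t` and the current term is proved within the
code of the current term, and the equation between `t` and its normal form is found as well.
-/

namespace Pool.Agent.Results.MP_a981ee_lc.NormalFormStrategy

open Pool.Agent.Results.MP_a981ee_lc.Confluence Pool.Agent.H557R2.Nf Relation

/-- A normal form: a term with no reduct. -/
def IsNormalForm (t : Term ℕ) : Prop := ∀ u, ¬ Red t u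

/-- The numerical code of a term. -/
def code : Term ℕ → ℕ
  | .I => 0
  | .K => 2
  | .S => 4
  | .D => 6
  | .D1 => 8
  | .D2 => 10
  | .var n => 2 * n + 12
  | .app s t => 2 * Nat.pair (code s) (code t) + 1

/-- `F` is an effective normal form strategy (given by a primitive recursive function on
codes). -/
structure IsEffectiveNFStrategy (F : Term ℕ → Term ℕ) : Prop where
  /-- `F` is computable, and even primitive recursive. -/
  effective : ∃ f : ℕ → ℕ, Nat.Primrec f ∧ Computable f ∧ ∀ t, code (F t) = f (code t)
  /-- `F` assigns to every term that is not a normal form a reduct of it. -/
  reduct : ∀ t, ¬ IsNormalForm t → TransGen Red t (F t)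
  /-- `F` fixes the normal forms. -/
  fixed : ∀ t, IsNormalForm t → F t = t
  /-- Iterating `F` from a term that has a normal form reaches the normal form. -/
  reaches : ∀ t n, ReflTransGen Red t n → IsNormalForm n → ∃ k, F^[k] t = n

theorem code_eq : code = enc := by
  funext t
  induction t with
  | app s t ih1 ih2 => simp only [code, enc, ap, ih1, ih2]
  | _ => rfl

theorem nf_iff (t : Term ℕ) : IsNormalForm t ↔ NF t := by
  unfold IsNormalForm NF
  simp only [red_iff]

/-- **There is an effective normal form strategy** for linearized combinatory logic with
surjective pairing. -/
theorem result : Function.Bijective code ∧ ∃ F : Term ℕ → Term ℕ, IsEffectiveNFStrategy F := by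
  rw [code_eq]
  refine ⟨⟨fun s t h => enc_inj h, enc_surj⟩, F, ?_, ?_, ?_, ?_⟩
  · exact ⟨fcode, primrec_fcode, (Primrec.nat_iff.2 primrec_fcode).to_comp, fun t => by
      rw [code_eq]; exact enc_F t⟩
  · intro t ht
    rw [nf_iff] at ht
    rw [red_eq]
    exact trans_F ht
  · intro t ht
    rw [nf_iff] at ht
    exact F_nf ht
  · intro t n h hn
    rw [nf_iff] at hn
    rw [red_eq] at h
    exact F_normalizes hn h

end Pool.Agent.Results.MP_a981ee_lc.NormalFormStrategy
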